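import Mathlib

set_option autoImplicit false

/-!
# Scales and positions
-/

namespace Pool.Agent.H51.BM

/-- ratio of the scales -/
def La (t : ℕ) : ℕ := (t + 4) * (t + 1)

/-- begin of the block of free digits of level `l` -/
def Bp (t l : ℕ) : ℕ := (t * La t + 1) * La t ^ l

/-- end of the block of free digits of level `l` -/
def Qp (t l : ℕ) : ℕ := (t + 1) * La t ^ (l + 1)

/-- begin of the zero zone of the first coordinate around the block of level `l` -/
def Pp (t l : ℕ) : ℕ := t * La t ^ (l + 1)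

/-- position of the free digit number `j` -/
def pos (t j : ℕ) : ℕ := j + t * La t * La t ^ Nat.log (La t) j

lemma two_le_La (t : ℕ) : 2 ≤ La t := by
  unfold La
  nlinarith

lemma La_pow_pos (t l : ℕ) : 0 < La t ^ l := pow_pos (by have := two_le_La t; omega) l

lemma pos_strictMono (t : ℕ) : StrictMono (pos t) := by
  intro i j hij
  unfold pos
  have h1 : La t ^ Nat.log (La t) i ≤ La t ^ Nat.log (La t) j :=
    Nat.pow_le_pow_right (by have := two_le_La t; omega) (Nat.log_mono_right hij.le)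
  have h2 : t * La t * La t ^ Nat.log (La t) i ≤ t * La t * La t ^ Nat.log (La t) j :=
    Nat.mul_le_mul_left _ h1
  omega

lemma pos_le (t j : ℕ) (hj : 1 ≤ j) : pos t j ≤ (t * La t + 1) * j := by
  unfold pos
  have h1 : La t ^ Nat.log (La t) j ≤ j := Nat.pow_log_le_self _ (by omega)
  nlinarith [Nat.mul_le_mul_left (t * La t) h1]

/-- positions of level at least `l` -/
lemma Bp_le_pos (t l j : ℕ) (hj : La t ^ l ≤ j) : Bp t l ≤ pos t j := by
  unfold Bp pos
  have h0 : 1 ≤ j := le_trans (La_pow_pos t l) hj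
  have h1 : l ≤ Nat.log (La t) j :=
    Nat.le_log_of_pow_le (by have := two_le_La t; omega) hj
  have h2 : La t ^ l ≤ La t ^ Nat.log (La t) j :=
    Nat.pow_le_pow_right (by have := two_le_La t; omega) h1
  nlinarith [Nat.mul_le_mul_left (t * La t) h2]

/-- positions of level less than `l + 1` -/
lemma pos_lt_Qp (t l j : ℕ) (hj : j < La t ^ (l + 1)) : pos t j < Qp t l := by
  unfold Qp pos
  rcases Nat.eq_zero_or_pos j with h0 | h0
  · subst h0
    rw [Nat.log_zero_right, pow_zero, mul_one]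
    have h1 : La t ^ 1 ≤ La t ^ (l + 1) :=
      Nat.pow_le_pow_right (by have := two_le_La t; omega) (by omega)
    have h2 := La_pow_pos t (l + 1)
    rw [pow_one] at h1
    nlinarith [Nat.mul_le_mul_left t h1]
  · have h1 : Nat.log (La t) j < l + 1 := Nat.log_lt_of_lt_pow (by omega) hj
    have h2 : La t ^ Nat.log (La t) j ≤ La t ^ l :=
      Nat.pow_le_pow_right (by have := two_le_La t; omega) (by omega)
    have h3 : La t ^ (l + 1) = La t * La t ^ l := by rw [pow_succ, mul_comm]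
    have h4 : t * La t * La t ^ Nat.log (La t) j ≤ t * La t ^ (l + 1) := by
      rw [h3, ← mul_assoc]
      exact Nat.mul_le_mul_left _ h2
    have h5 : (t + 1) * La t ^ (l + 1) = t * La t ^ (l + 1) + La t ^ (l + 1) := by ring
    omega

/-- no position lies between the blocks -/
lemma pos_ne (t l j q : ℕ) (h1 : Qp t l ≤ q) (h2 : q < Bp t (l + 1)) : pos t j ≠ q := by
  rcases lt_or_ge j (La t ^ (l + 1)) with h | h
  · have := pos_lt_Qp t l j h
    omega
  · have := Bp_le_pos t (l + 1) j h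
    omega

lemma Qp_strictMono (t : ℕ) : StrictMono (Qp t) := by
  intro i j hij
  unfold Qp
  have h1 : La t ^ (i + 1) < La t ^ (j + 1) :=
    Nat.pow_lt_pow_right (by have := two_le_La t; omega) (by omega)
  exact Nat.mul_lt_mul_of_pos_left h1 (by omega)

/-- every place after the first block lies in exactly one interval between ends of blocks -/
lemma exists_level (t l₀ k : ℕ) (hk : Qp t l₀ ≤ k) : ∃ l, l₀ ≤ l ∧ Qp t l ≤ k ∧ k < Qp t (l + 1) := by
  have hex : ∃ i, k < Qp t (l₀ + i) := by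
    refine ⟨k + 1, ?_⟩
    have h1 : l₀ + (k + 1) ≤ Qp t (l₀ + (k + 1)) := (Qp_strictMono t).le_apply
    omega
  classical
  have h1 := Nat.find_spec hex
  have h2 : 1 ≤ Nat.find hex := by
    rcases Nat.eq_zero_or_pos (Nat.find hex) with h | h
    · rw [h, add_zero] at h1
      omega
    · exact h
  have h3 : ¬ k < Qp t (l₀ + (Nat.find hex - 1)) := Nat.find_min hex (by omega)
  refine ⟨l₀ + (Nat.find hex - 1), by omega, not_lt.mp h3, ?_⟩
  have h4 : l₀ + (Nat.find hex - 1) + 1 = l₀ + Nat.find hex := by omega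
  rw [h4]
  exact h1

lemma Pp_le_Bp (t l : ℕ) : Pp t l ≤ Bp t l := by
  unfold Pp Bp
  rw [pow_succ]
  nlinarith [La_pow_pos t l]

lemma Pp_le_Qp (t l : ℕ) : Pp t l ≤ Qp t l := by
  unfold Pp Qp
  nlinarith [La_pow_pos t (l + 1)]

/-- the gap between the end of the block of level `l` and the next zero zone -/
lemma gap (t l : ℕ) (ht : 1 ≤ t) : (t + 1) * Qp t l + 3 ≤ Pp t (l + 1) := by
  unfold Qp Pp
  have h0 := La_pow_pos t (l + 1)
  have h1 : La t ^ (l + 1 + 1) = La t * La t ^ (l + 1) := by rw [pow_succ, mul_comm]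
  rw [h1]
  have h2 : (t + 1) * (t + 1) + 3 ≤ t * La t := by
    unfold La
    obtain ⟨s, rfl⟩ := Nat.exists_eq_add_of_le ht
    nlinarith [Nat.zero_le s, Nat.zero_le (s * s), Nat.zero_le (s * s * s)]
  have h3 : ((t + 1) * (t + 1) + 3) * La t ^ (l + 1) ≤ t * La t * La t ^ (l + 1) :=
    Nat.mul_le_mul_right _ h2
  nlinarith

/-- comparison of the powers at the begin of a block -/
lemma pow_block {M N t : ℕ} (l : ℕ) (ht : 1 ≤ t) (hMN : M ^ (t + 1) ≤ N ^ t) (hM : 1 ≤ M) :
    M ^ (Qp t l + La t ^ l) ≤ N ^ Bp t l := by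
  have h1 : (M ^ (Qp t l + La t ^ l)) ^ t ≤ (N ^ Bp t l) ^ t := by
    calc (M ^ (Qp t l + La t ^ l)) ^ t = M ^ ((Qp t l + La t ^ l) * t) := (pow_mul _ _ _).symm
      _ ≤ M ^ ((t + 1) * Bp t l) := by
          apply Nat.pow_le_pow_right hM
          unfold Qp Bp
          rw [pow_succ]
          nlinarith [La_pow_pos t l]
      _ = (M ^ (t + 1)) ^ Bp t l := pow_mul _ _ _
      _ ≤ (N ^ t) ^ Bp t l := Nat.pow_le_pow_left hMN _
      _ = _ := by rw [← pow_mul, ← pow_mul, mul_comm]
  exact (Nat.pow_le_pow_iff_left (by omega)).mp h1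

/-- the mesh of the slopes of level `l` -/
lemma pow_mesh {M N t : ℕ} (l : ℕ) (ht : 1 ≤ t) (hN : N ≤ M ^ t) (hM : 2 ≤ M) :
    8 * N ^ Qp t l * M ^ Qp t l ≤ M ^ Pp t (l + 1) := by
  calc 8 * N ^ Qp t l * M ^ Qp t l ≤ M ^ 3 * (M ^ t) ^ Qp t l * M ^ Qp t l := by
        gcongr
        calc 8 = 2 ^ 3 := by norm_num
          _ ≤ M ^ 3 := Nat.pow_le_pow_left hM 3
    _ = M ^ ((t + 1) * Qp t l + 3) := by
        rw [← pow_mul, ← pow_add, ← pow_add]
        congr 1
        ring
    _ ≤ _ := Nat.pow_le_pow_right (by omega) (gap t l ht)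

end Pool.Agent.H51.BM
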