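import Mathlib
import Pool.Agent.H51.BM.Pos

set_option autoImplicit false

open MeasureTheory Metric Filter Topology
open scoped ENNReal NNReal

/-!
# The set of second coordinates and its dimension
-/

namespace Pool.Agent.H51.BM

noncomputable section

open Classical in
/-- digit sequence in base `N` with the free digits `b` at the positions `pos t (j + J)` -/
def dg {M N : ℕ} (hMN : M < N) (t J : ℕ) (b : ℕ → Fin M) (q : ℕ) : Fin N :=
  if h : ∃ j, pos t (j + J) = q then ⟨b h.choose, lt_trans (b h.choose).2 hMN⟩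
  else ⟨0, by omega⟩

variable {M N : ℕ} (hMN : M < N) (t J : ℕ)

lemma dg_pos (b : ℕ → Fin M) (j : ℕ) : (dg hMN t J b (pos t (j + J)) : ℕ) = b j := by
  have h : ∃ j', pos t (j' + J) = pos t (j + J) := ⟨j, rfl⟩
  unfold dg
  rw [dif_pos h]
  have h1 : h.choose = j := by
    have := (pos_strictMono t).injective h.choose_spec
    omega
  simp only [h1]

lemma dg_zero (b : ℕ → Fin M) (q : ℕ) (h : ∀ j, pos t (j + J) ≠ q) :
    (dg hMN t J b q : ℕ) = 0 := by
  unfold dg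
  rw [dif_neg (by push Not; exact h)]

lemma dg_lt (b : ℕ → Fin M) (q : ℕ) : (dg hMN t J b q : ℕ) < M := by
  by_cases h : ∃ j, pos t (j + J) = q
  · obtain ⟨j, rfl⟩ := h
    rw [dg_pos]
    exact (b j).2
  · rw [dg_zero hMN t J b q (by push Not at h; exact h)]
    exact Fin.pos (b 0)

/-- second coordinate -/
def Yc (b : ℕ → Fin M) : ℝ := Real.ofDigits (dg hMN t J b)

/-- the parameter -/
def Zc (b : ℕ → Fin M) : ℝ := Real.ofDigits b

lemma ofDigits_le_sub (a : ℕ → Fin N) (hN : 0 < N) (ha : (a 0 : ℕ) + 1 < N) :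
    Real.ofDigits a ≤ 1 - (N : ℝ)⁻¹ := by
  rw [Real.ofDigits_eq_sum_add_ofDigits a 1]
  have h1 := Real.ofDigits_le_one (fun i => a (i + 1))
  have hN' : (0 : ℝ) < N := by exact_mod_cast hN
  simp only [Finset.sum_range_one, Real.ofDigitsTerm, zero_add, pow_one]
  have h2 : ((a 0 : ℕ) : ℝ) + 1 ≤ N - 1 := by
    have : (a 0 : ℕ) + 1 + 1 ≤ N := ha
    have h3 : (((a 0 : ℕ) + 1 + 1 : ℕ) : ℝ) ≤ N := by exact_mod_cast this
    push_cast at h3
    linarith
  have h4 : (0 : ℝ) < (N : ℝ)⁻¹ := by positivity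
  calc ((a 0 : ℕ) : ℝ) * (N : ℝ)⁻¹ + (N : ℝ)⁻¹ * Real.ofDigits (fun i => a (i + 1))
      ≤ ((a 0 : ℕ) : ℝ) * (N : ℝ)⁻¹ + (N : ℝ)⁻¹ * 1 := by gcongr
    _ = (((a 0 : ℕ) : ℝ) + 1) * (N : ℝ)⁻¹ := by ring
    _ ≤ (N - 1) * (N : ℝ)⁻¹ := by gcongr
    _ = 1 - (N : ℝ)⁻¹ := by field_simp

/-- separation of points -/
lemma sep_dg (a a' : ℕ → Fin N) (hN : 0 < N) (ha : ∀ q, (a q : ℕ) + 1 < N)
    (q : ℕ) (hq : (a q : ℕ) < a' q) (hlt : ∀ p < q, a p = a' p) :
    ((N : ℝ) ^ (q + 2))⁻¹ ≤ Real.ofDigits a' - Real.ofDigits a := by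
  have hN' : (0 : ℝ) < N := by exact_mod_cast hN
  rw [Real.ofDigits_eq_sum_add_ofDigits a (q + 1), Real.ofDigits_eq_sum_add_ofDigits a' (q + 1),
    Finset.sum_range_succ, Finset.sum_range_succ]
  have h1 : ∑ i ∈ Finset.range q, Real.ofDigitsTerm a i =
      ∑ i ∈ Finset.range q, Real.ofDigitsTerm a' i := by
    apply Finset.sum_congr rfl
    intro p hp
    rw [Finset.mem_range] at hp
    simp [Real.ofDigitsTerm, hlt p hp]
  rw [h1]
  have h2 := ofDigits_le_sub (fun i => a (i + (q + 1))) hN (ha _)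
  have h3 := Real.ofDigits_nonneg (fun i => a' (i + (q + 1)))
  set T := Real.ofDigits (fun i => a (i + (q + 1)))
  set T' := Real.ofDigits (fun i => a' (i + (q + 1)))
  set S := ∑ i ∈ Finset.range q, Real.ofDigitsTerm a' i
  set δ := ((N : ℝ) ^ (q + 1))⁻¹ with hδ
  have hδ0 : 0 < δ := by positivity
  have e1 : Real.ofDigitsTerm a q = ((a q : ℕ) : ℝ) * δ := by simp [Real.ofDigitsTerm, hδ]
  have e2 : Real.ofDigitsTerm a' q = ((a' q : ℕ) : ℝ) * δ := by simp [Real.ofDigitsTerm, hδ]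
  have e4 : ((N : ℝ) ^ (q + 2))⁻¹ = δ * (N : ℝ)⁻¹ := by
    rw [hδ, ← mul_inv, ← pow_succ]
  rw [e1, e2, e4]
  have h5 : ((a q : ℕ) : ℝ) + 1 ≤ ((a' q : ℕ) : ℝ) := by exact_mod_cast hq
  have h6 : δ * T ≤ δ * (1 - (N : ℝ)⁻¹) := by gcongr
  have h7 : 0 ≤ δ * T' := by positivity
  have h8 : (((a q : ℕ) : ℝ) + 1) * δ ≤ ((a' q : ℕ) : ℝ) * δ := by gcongr
  nlinarith

/-- the Hölder exponent -/
def al (t : ℕ) : ℝ≥0 := 1 / (t * (t * La t + 3))

lemma al_pos (t : ℕ) (ht : 1 ≤ t) : 0 < al t := by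
  unfold al
  have : (0 : ℝ≥0) < t := by exact_mod_cast ht
  positivity

lemma sep_Yc (b b' : ℕ → Fin M) (j : ℕ) (hj : b j ≠ b' j) (hlt : ∀ i < j, b i = b' i) :
    ((N : ℝ) ^ (pos t (j + J) + 2))⁻¹ ≤ |Yc hMN t J b - Yc hMN t J b'| := by
  have key : ∀ c c' : ℕ → Fin M, (c j : ℕ) < c' j → (∀ i < j, c i = c' i) →
      ((N : ℝ) ^ (pos t (j + J) + 2))⁻¹ ≤ Yc hMN t J c' - Yc hMN t J c := by
    intro c c' h1 h2
    apply sep_dg _ _ (by omega)
    · intro q
      have := dg_lt hMN t J c q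
      omega
    · rw [dg_pos, dg_pos]
      exact h1
    · intro p hp
      apply Fin.ext
      by_cases h : ∃ i, pos t (i + J) = p
      · obtain ⟨i, rfl⟩ := h
        rw [dg_pos, dg_pos, h2 i]
        have := (pos_strictMono t).lt_iff_lt.mp hp
        omega
      · push Not at h
        rw [dg_zero hMN t J c p h, dg_zero hMN t J c' p h]
  rcases lt_or_gt_of_ne (fun h => hj (Fin.ext h)) with h | h
  · rw [abs_sub_comm]
    exact (key b b' h hlt).trans (le_abs_self _)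
  · exact (key b' b h (fun i hi => (hlt i hi).symm)).trans (le_abs_self _)

lemma holder_aux (hN : N ≤ M ^ t) (hM : 2 ≤ M) (ht : 1 ≤ t) (hJ : 1 ≤ J) (b b' : ℕ → Fin M) :
    |Zc b - Zc b'| ≤ (M : ℝ) ^ J * |Yc hMN t J b - Yc hMN t J b'| ^ ((al t : ℝ≥0) : ℝ) := by
  have hM0 : (0 : ℝ) < M := by positivity
  by_cases hb : b = b'
  · subst hb
    rw [sub_self, sub_self, abs_zero, Real.zero_rpow, mul_zero]
    have := al_pos t ht
    exact_mod_cast this.ne'
  · have hex : ∃ i, b i ≠ b' i := by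
      by_contra hcon
      push Not at hcon
      exact hb (funext hcon)
    classical
    set j := Nat.find hex with hj
    have h1 : b j ≠ b' j := Nat.find_spec hex
    have h2 : ∀ i < j, b i = b' i := fun i hi => by
      have := Nat.find_min hex hi
      push Not at this
      exact this
    have h3 : |Zc b - Zc b'| ≤ ((M : ℝ) ^ j)⁻¹ := by
      have := Real.abs_ofDigits_sub_ofDigits_le h2
      simpa [Zc] using this
    have h4 := sep_Yc hMN t J b b' j h1 h2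
    have h5 : ((M : ℝ) ^ (t * (t * La t + 3) * (j + J)))⁻¹ ≤ ((N : ℝ) ^ (pos t (j + J) + 2))⁻¹ := by
      have hN0 : (0 : ℝ) < N := by
        have : 0 < N := by omega
        exact_mod_cast this
      apply inv_anti₀ (by positivity)
      have h6 := pos_le t (j + J) (by omega)
      have h7 : pos t (j + J) + 2 ≤ (t * La t + 3) * (j + J) := by nlinarith
      calc (N : ℝ) ^ (pos t (j + J) + 2) ≤ ((M : ℝ) ^ t) ^ (pos t (j + J) + 2) := by
            gcongr
            exact_mod_cast hN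
        _ = (M : ℝ) ^ (t * (pos t (j + J) + 2)) := (pow_mul _ _ _).symm
        _ ≤ _ := by
            apply pow_le_pow_right₀ (by
              have : 1 ≤ M := by omega
              exact_mod_cast this)
            rw [mul_assoc]
            exact Nat.mul_le_mul_left _ h7
    have h6 : (((M : ℝ) ^ (t * (t * La t + 3) * (j + J)))⁻¹) ^ ((al t : ℝ≥0) : ℝ) =
        ((M : ℝ) ^ (j + J))⁻¹ := by
      rw [Real.inv_rpow (by positivity)]
      congr 1
      rw [mul_comm (t * (t * La t + 3)), pow_mul, ← Real.rpow_natCast _ (t * (t * La t + 3)),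
        ← Real.rpow_mul (by positivity)]
      have e1 : ((t * (t * La t + 3) : ℕ) : ℝ) * ((al t : ℝ≥0) : ℝ) = 1 := by
        unfold al
        have : (0 : ℝ) < t := by exact_mod_cast ht
        push_cast
        field_simp
      rw [e1, Real.rpow_one]
    have h7 : ((M : ℝ) ^ (j + J))⁻¹ ≤ |Yc hMN t J b - Yc hMN t J b'| ^ ((al t : ℝ≥0) : ℝ) := by
      rw [← h6]
      exact Real.rpow_le_rpow (by positivity) (h5.trans h4) (NNReal.coe_nonneg _)
    calc |Zc b - Zc b'| ≤ ((M : ℝ) ^ j)⁻¹ := h3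
      _ = (M : ℝ) ^ J * ((M : ℝ) ^ (j + J))⁻¹ := by
          rw [pow_add, mul_inv]
          field_simp
      _ ≤ _ := by gcongr

open Classical in
/-- the Hölder map -/
def psi (x : ℝ) : ℝ := if h : ∃ b, Yc hMN t J b = x then Zc h.choose else 0

lemma psi_Yc (hN : N ≤ M ^ t) (hM : 2 ≤ M) (ht : 1 ≤ t) (hJ : 1 ≤ J) (b : ℕ → Fin M) :
    psi hMN t J (Yc hMN t J b) = Zc b := by
  have h : ∃ b', Yc hMN t J b' = Yc hMN t J b := ⟨b, rfl⟩
  unfold psi
  rw [dif_pos h]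
  have h1 := holder_aux hMN t J hN hM ht hJ h.choose b
  have ha : ((al t : ℝ≥0) : ℝ) ≠ 0 := by
    have := al_pos t ht
    exact_mod_cast this.ne'
  rw [h.choose_spec, sub_self, abs_zero, Real.zero_rpow ha, mul_zero] at h1
  have h3 := abs_nonpos_iff.mp h1
  linarith

lemma psi_holder (hN : N ≤ M ^ t) (hM : 2 ≤ M) (ht : 1 ≤ t) (hJ : 1 ≤ J) :
    HolderOnWith ((M : ℝ≥0) ^ J) (al t) (psi hMN t J) (Set.range (Yc hMN t J)) := by
  rintro _ ⟨b, rfl⟩ _ ⟨b', rfl⟩
  rw [psi_Yc hMN t J hN hM ht hJ, psi_Yc hMN t J hN hM ht hJ, edist_dist, edist_dist,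
    Real.dist_eq, Real.dist_eq]
  have h := holder_aux hMN t J hN hM ht hJ b b'
  rw [ENNReal.ofReal_rpow_of_nonneg (abs_nonneg _) (NNReal.coe_nonneg _)]
  have e2 : (((M : ℝ≥0) ^ J : ℝ≥0) : ℝ≥0∞) = ENNReal.ofReal ((M : ℝ) ^ J) := by
    rw [ENNReal.ofReal_pow (by positivity)]
    simp
  rw [e2, ← ENNReal.ofReal_mul (by positivity)]
  exact ENNReal.ofReal_le_ofReal h

theorem dimH_range_Yc (hN : N ≤ M ^ t) (hM : 2 ≤ M) (ht : 1 ≤ t) (hJ : 1 ≤ J) :
    ((al t : ℝ≥0) : ℝ≥0∞) ≤ dimH (Set.range (Yc hMN t J)) := by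
  have ha := al_pos t ht
  have h1 := (psi_holder hMN t J hN hM ht hJ).dimH_image_le ha
  have h2 : Set.Icc (0 : ℝ) 1 ⊆ psi hMN t J '' (Set.range (Yc hMN t J)) := by
    intro y hy
    obtain ⟨b, -, hb⟩ := Real.ofDigits_SurjOn (b := M) (by omega) hy
    exact ⟨Yc hMN t J b, ⟨b, rfl⟩, by rw [psi_Yc hMN t J hN hM ht hJ]; exact hb⟩
  have h3 : dimH (Set.Icc (0 : ℝ) 1) = 1 := by
    rw [Real.dimH_of_nonempty_interior]
    · simp
    · rw [interior_Icc]
      exact ⟨1 / 2, by norm_num, by norm_num⟩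
  have h4 := dimH_mono h2
  rw [h3] at h4
  have h5 := h4.trans h1
  rw [ENNReal.le_div_iff_mul_le (by left; exact_mod_cast ha.ne') (by left; exact ENNReal.coe_ne_top)]
    at h5
  simpa using h5

end

end Pool.Agent.H51.BM
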