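import Mathlib
import Pool.Agent.H51.BM.Pos

set_option autoImplicit false

open Filter Topology

/-!
# Good slopes are dense
-/

namespace Pool.Agent.H51.BM

noncomputable section

/-- the mesh of the slopes of level `l` -/
def mesh (M N t l : ℕ) : ℝ := (N : ℝ) ^ Qp t l / (M : ℝ) ^ Pp t (l + 1)

/-- slopes which are very well approximable by the lattices of all levels -/
def Good (M N t : ℕ) (c : ℝ) : Prop :=
  ∃ l₀ : ℕ, 4 * c ≤ 2 ^ (La t ^ l₀) ∧ ∀ l, l₀ ≤ l → ∃ s : ℕ, 0 ≤ c - s * mesh M N t l ∧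
    (c - s * mesh M N t l) * (4 * (M : ℝ) ^ Qp t (l + 1)) ≤ 1

variable {M N t : ℕ}

lemma mesh_pos (hM : 2 ≤ M) (hN : 1 ≤ N) (l : ℕ) : 0 < mesh M N t l := by
  have h1 : (0 : ℝ) < M := by positivity
  have h2 : (0 : ℝ) < N := by positivity
  unfold mesh
  positivity

lemma mesh_le (hM : 2 ≤ M) (ht : 1 ≤ t) (hN : N ≤ M ^ t) (l : ℕ) :
    8 * mesh M N t l * (M : ℝ) ^ Qp t l ≤ 1 := by
  have h1 : (0 : ℝ) < M := by positivity
  have h := pow_mesh l ht hN hM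
  have h' : (8 : ℝ) * (N : ℝ) ^ Qp t l * (M : ℝ) ^ Qp t l ≤ (M : ℝ) ^ Pp t (l + 1) := by
    exact_mod_cast h
  unfold mesh
  have e : 8 * ((N : ℝ) ^ Qp t l / (M : ℝ) ^ Pp t (l + 1)) * (M : ℝ) ^ Qp t l =
      (8 * (N : ℝ) ^ Qp t l * (M : ℝ) ^ Qp t l) / (M : ℝ) ^ Pp t (l + 1) := by ring
  rw [e, div_le_one (by positivity)]
  exact h'

lemma mesh_succ_le (hM : 2 ≤ M) (ht : 1 ≤ t) (hN1 : 1 ≤ N) (hN : N ≤ M ^ t) (l : ℕ) :
    8 * mesh M N t (l + 1) ≤ mesh M N t l := by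
  have h1 : (1 : ℝ) < M := by exact_mod_cast (by omega : 1 < M)
  have h2 : (1 : ℝ) ≤ N := by exact_mod_cast hN1
  have h3 := mesh_le hM ht hN (l + 1)
  have h4 := mesh_pos (t := t) hM hN1 (l + 1)
  have h5 : ((M : ℝ) ^ Pp t (l + 1))⁻¹ ≤ mesh M N t l := by
    unfold mesh
    rw [inv_eq_one_div]
    gcongr
    exact one_le_pow₀ h2
  refine le_trans ?_ h5
  rw [le_inv_comm₀ (by positivity) (by positivity), inv_eq_one_div, le_div_iff₀ (by positivity)]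
  calc (M : ℝ) ^ Pp t (l + 1) * (8 * mesh M N t (l + 1))
      ≤ (M : ℝ) ^ Qp t (l + 1) * (8 * mesh M N t (l + 1)) := by
        gcongr
        · exact h1.le
        · exact Pp_le_Qp t (l + 1)
    _ = 8 * mesh M N t (l + 1) * (M : ℝ) ^ Qp t (l + 1) := by ring
    _ ≤ 1 := h3

lemma mesh_small (hM : 2 ≤ M) (ht : 1 ≤ t) (hN1 : 1 ≤ N) (hN : N ≤ M ^ t) (ε : ℝ) (hε : 0 < ε) :
    ∃ l₀, ∀ l, l₀ ≤ l → mesh M N t l < ε := by
  have h1 : ∀ l, mesh M N t l ≤ mesh M N t 0 * (1 / 8) ^ l := by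
    intro l
    induction l with
    | zero => simp
    | succ l ih =>
      have h2 := mesh_succ_le hM ht hN1 hN l
      rw [pow_succ]
      linarith
  have h4 : Tendsto (fun l : ℕ => mesh M N t 0 * ((1 : ℝ) / 8) ^ l) atTop (𝓝 (mesh M N t 0 * 0)) := by
    apply Tendsto.const_mul
    exact tendsto_pow_atTop_nhds_zero_of_lt_one (by norm_num) (by norm_num)
  rw [mul_zero] at h4
  obtain ⟨l₀, hl₀⟩ := eventually_atTop.mp (h4.eventually_lt_const hε)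
  exact ⟨l₀, fun l hl => (h1 l).trans_lt (hl₀ l hl)⟩

/-- the approximations -/
def cs (M N t : ℕ) (l₀ : ℕ) (a : ℝ) : ℕ → ℝ
  | 0 => (⌊a / mesh M N t l₀⌋₊ + 1 : ℕ) * mesh M N t l₀
  | i + 1 => (⌈cs M N t l₀ a i / mesh M N t (l₀ + (i + 1))⌉₊ : ℕ) * mesh M N t (l₀ + (i + 1))

lemma cs_mult (l₀ : ℕ) (a : ℝ) (i : ℕ) : ∃ s : ℕ, cs M N t l₀ a i = s * mesh M N t (l₀ + i) := by
  cases i with
  | zero => exact ⟨_, rfl⟩
  | succ i => exact ⟨_, rfl⟩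

lemma cs_zero (hM : 2 ≤ M) (hN1 : 1 ≤ N) (l₀ : ℕ) (a : ℝ) (ha : 0 ≤ a) :
    a < cs M N t l₀ a 0 ∧ cs M N t l₀ a 0 ≤ a + mesh M N t l₀ := by
  have h0 := mesh_pos (t := t) hM hN1 l₀
  have e : cs M N t l₀ a 0 = (⌊a / mesh M N t l₀⌋₊ + 1 : ℕ) * mesh M N t l₀ := rfl
  rw [e]
  push_cast
  constructor
  · have h1 := Nat.lt_floor_add_one (a / mesh M N t l₀)
    rwa [div_lt_iff₀ h0] at h1
  · have h1 := Nat.floor_le (div_nonneg ha h0.le)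
    rw [le_div_iff₀ h0] at h1
    linarith

lemma cs_succ (hM : 2 ≤ M) (hN1 : 1 ≤ N) (l₀ : ℕ) (a : ℝ) (i : ℕ) (h : 0 ≤ cs M N t l₀ a i) :
    cs M N t l₀ a i ≤ cs M N t l₀ a (i + 1) ∧
      cs M N t l₀ a (i + 1) ≤ cs M N t l₀ a i + mesh M N t (l₀ + (i + 1)) := by
  have h0 := mesh_pos (t := t) hM hN1 (l₀ + (i + 1))
  have e : cs M N t l₀ a (i + 1) =
    (⌈cs M N t l₀ a i / mesh M N t (l₀ + (i + 1))⌉₊ : ℕ) * mesh M N t (l₀ + (i + 1)) := rfl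
  rw [e]
  constructor
  · have h1 := Nat.le_ceil (cs M N t l₀ a i / mesh M N t (l₀ + (i + 1)))
    rwa [div_le_iff₀ h0] at h1
  · have h1 := (Nat.ceil_lt_add_one (div_nonneg h h0.le)).le
    have h2 : (⌈cs M N t l₀ a i / mesh M N t (l₀ + (i + 1))⌉₊ : ℝ) * mesh M N t (l₀ + (i + 1)) ≤
      (cs M N t l₀ a i / mesh M N t (l₀ + (i + 1)) + 1) * mesh M N t (l₀ + (i + 1)) := by gcongr
    refine h2.trans (le_of_eq ?_)
    field_simp

lemma cs_pos (hM : 2 ≤ M) (hN1 : 1 ≤ N) (l₀ : ℕ) (a : ℝ) (ha : 0 ≤ a) (i : ℕ) :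
    0 ≤ cs M N t l₀ a i := by
  obtain ⟨s, hs⟩ := cs_mult (M := M) (N := N) (t := t) l₀ a i
  rw [hs]
  have := mesh_pos (t := t) hM hN1 (l₀ + i)
  positivity

lemma cs_mono (hM : 2 ≤ M) (hN1 : 1 ≤ N) (l₀ : ℕ) (a : ℝ) (ha : 0 ≤ a) :
    Monotone (cs M N t l₀ a) :=
  monotone_nat_of_le_succ (fun i => (cs_succ hM hN1 l₀ a i (cs_pos hM hN1 l₀ a ha i)).1)

lemma cs_bound (hM : 2 ≤ M) (ht : 1 ≤ t) (hN1 : 1 ≤ N) (hN : N ≤ M ^ t) (l₀ : ℕ) (a : ℝ)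
    (ha : 0 ≤ a) (i d : ℕ) :
    cs M N t l₀ a (i + d) ≤ cs M N t l₀ a i + 2 * mesh M N t (l₀ + (i + 1)) -
      2 * mesh M N t (l₀ + (i + d + 1)) := by
  induction d with
  | zero => simp
  | succ d ih =>
    have h1 := (cs_succ (t := t) hM hN1 l₀ a (i + d) (cs_pos hM hN1 l₀ a ha (i + d))).2
    have h2 := mesh_succ_le hM ht hN1 hN (l₀ + (i + d + 1))
    have h3 := mesh_pos (t := t) hM hN1 (l₀ + (i + d + 1) + 1)
    have e1 : i + (d + 1) = i + d + 1 := by ring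
    have e2 : l₀ + (i + d + 1 + 1) = l₀ + (i + d + 1) + 1 := by ring
    rw [e1, e2]
    linarith

/-- Good slopes are dense in the positive reals. -/
theorem exists_good (hM : 2 ≤ M) (ht : 1 ≤ t) (hN1 : 1 ≤ N) (hN : N ≤ M ^ t) (a b : ℝ)
    (ha : 0 ≤ a) (hab : a < b) : ∃ c, a < c ∧ c < b ∧ Good M N t c := by
  obtain ⟨l₁, hl₁⟩ := mesh_small hM ht hN1 hN ((b - a) / 3) (by linarith)
  obtain ⟨l₂, hl₂⟩ : ∃ l₂ : ℕ, 4 * b ≤ 2 ^ l₂ := by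
    obtain ⟨n, hn⟩ := exists_nat_ge (4 * b)
    refine ⟨n, hn.trans ?_⟩
    have : n ≤ 2 ^ n := (Nat.lt_two_pow_self (n := n)).le
    exact_mod_cast this
  set l₀ := max l₁ l₂ with hl₀
  have hbdd : ∀ i j, cs M N t l₀ a j ≤ cs M N t l₀ a i + 2 * mesh M N t (l₀ + (i + 1)) := by
    intro i j
    have hp := mesh_pos (t := t) hM hN1 (l₀ + (i + 1))
    rcases le_total j i with h | h
    · have := cs_mono (t := t) hM hN1 l₀ a ha h
      linarith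
    · obtain ⟨d, rfl⟩ := Nat.exists_eq_add_of_le h
      have h1 := cs_bound hM ht hN1 hN l₀ a ha i d
      have h2 := mesh_pos (t := t) hM hN1 (l₀ + (i + d + 1))
      linarith
  have hbd : BddAbove (Set.range (cs M N t l₀ a)) := by
    refine ⟨cs M N t l₀ a 0 + 2 * mesh M N t (l₀ + (0 + 1)), ?_⟩
    rintro _ ⟨j, rfl⟩
    exact hbdd 0 j
  obtain ⟨c, hc⟩ : ∃ c, c = ⨆ i, cs M N t l₀ a i := ⟨_, rfl⟩
  have hc1 : ∀ i, cs M N t l₀ a i ≤ c := fun i => by rw [hc]; exact le_ciSup hbd i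
  have hc2 : ∀ i, c ≤ cs M N t l₀ a i + 2 * mesh M N t (l₀ + (i + 1)) := fun i => by
    rw [hc]; exact ciSup_le (fun j => hbdd i j)
  have hz := cs_zero (t := t) hM hN1 l₀ a ha
  have hm0 := hl₁ l₀ (le_max_left _ _)
  have hm1 := mesh_succ_le hM ht hN1 hN l₀
  have hm2 := mesh_pos (t := t) hM hN1 l₀
  have hcb : c < b := by
    have := hc2 0
    rw [zero_add] at this
    linarith [hz.2]
  refine ⟨c, lt_of_lt_of_le hz.1 (hc1 0), hcb, l₀, ?_, ?_⟩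
  · calc 4 * c ≤ 4 * b := by linarith
      _ ≤ 2 ^ l₂ := hl₂
      _ ≤ _ := by
        apply pow_le_pow_right₀ (by norm_num)
        calc l₂ ≤ l₀ := le_max_right _ _
          _ ≤ La t ^ l₀ := (Nat.lt_pow_self (by have := two_le_La t; omega)).le
  · intro l hl
    obtain ⟨i, rfl⟩ := Nat.exists_eq_add_of_le hl
    obtain ⟨s, hs⟩ := cs_mult (M := M) (N := N) (t := t) l₀ a i
    refine ⟨s, ?_, ?_⟩
    · rw [← hs]
      linarith [hc1 i]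
    · rw [← hs]
      have h1 := mesh_le hM ht hN (l₀ + i + 1)
      have h2 := hc2 i
      have e : l₀ + (i + 1) = l₀ + i + 1 := by ring
      rw [e] at h2
      have h3 : (0 : ℝ) < (M : ℝ) ^ Qp t (l₀ + i + 1) := by
        have : (0 : ℝ) < M := by positivity
        positivity
      calc (c - cs M N t l₀ a i) * (4 * (M : ℝ) ^ Qp t (l₀ + i + 1))
          ≤ (2 * mesh M N t (l₀ + i + 1)) * (4 * (M : ℝ) ^ Qp t (l₀ + i + 1)) := by
            gcongr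
            linarith
        _ = 8 * mesh M N t (l₀ + i + 1) * (M : ℝ) ^ Qp t (l₀ + i + 1) := by ring
        _ ≤ 1 := h1

end

end Pool.Agent.H51.BM
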