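import Mathlib
import Pool.Agent.H86.CarpetLines
import Pool.Agent.H51.BM.Hol
import Pool.Agent.H51.BM.Slope

set_option autoImplicit false

open Filter Topology

/-!
# Points of the carpet on the lines of good slope
-/

namespace Pool.Agent.H51.BM

open Pool.Agent.H86.Carpet

noncomputable section

lemma sum_nat_div {N : ℕ} (hN : 0 < N) (a : ℕ → Fin N) (K : ℕ) :
    ∃ C : ℕ, ∑ q ∈ Finset.range K, Real.ofDigitsTerm a q = (C : ℝ) / (N : ℝ) ^ K := by
  have hN' : (0 : ℝ) < N := by exact_mod_cast hN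
  induction K with
  | zero => exact ⟨0, by simp⟩
  | succ K ih =>
    obtain ⟨C, hC⟩ := ih
    refine ⟨N * C + a K, ?_⟩
    rw [Finset.sum_range_succ, hC]
    simp only [Real.ofDigitsTerm]
    push_cast
    rw [pow_succ]
    field_simp

variable {M N : ℕ} (hMN : M < N) (t : ℕ)

lemma Yc_nonneg (J : ℕ) (b : ℕ → Fin M) : 0 ≤ Yc hMN t J b := Real.ofDigits_nonneg _

lemma Yc_le_one (J : ℕ) (b : ℕ → Fin M) : Yc hMN t J b ≤ 1 := Real.ofDigits_le_one _

lemma Yc_block (J l : ℕ) (b : ℕ → Fin M) : ∃ v : ℕ, ∃ ε : ℝ,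
    Yc hMN t J b = v / (N : ℝ) ^ Qp t l + ε ∧ 0 ≤ ε ∧ ε ≤ ((N : ℝ) ^ Bp t (l + 1))⁻¹ := by
  have hN : 0 < N := by omega
  obtain ⟨C, hC⟩ := sum_nat_div hN (dg hMN t J b) (Qp t l)
  refine ⟨C, ((N : ℝ) ^ Bp t (l + 1))⁻¹ *
    Real.ofDigits (fun i => dg hMN t J b (i + Bp t (l + 1))), ?_, ?_, ?_⟩
  · unfold Yc
    rw [Real.ofDigits_eq_sum_add_ofDigits (dg hMN t J b) (Bp t (l + 1)), ← hC]
    congr 1
    symm
    apply Finset.sum_subset
    · intro q hq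
      rw [Finset.mem_range] at hq ⊢
      refine lt_of_lt_of_le hq ?_
      unfold Qp Bp
      apply Nat.mul_le_mul_right
      nlinarith [two_le_La t]
    · intro q hq hq'
      rw [Finset.mem_range] at hq hq'
      have : (dg hMN t J b q : ℕ) = 0 :=
        dg_zero hMN t J b q (fun j => pos_ne t l _ q (not_lt.mp hq') hq)
      simp [Real.ofDigitsTerm, this]
  · have := Real.ofDigits_nonneg (fun i => dg hMN t J b (i + Bp t (l + 1)))
    positivity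
  · have h1 := Real.ofDigits_le_one (fun i => dg hMN t J b (i + Bp t (l + 1)))
    have h2 : (0 : ℝ) ≤ ((N : ℝ) ^ Bp t (l + 1))⁻¹ := by positivity
    nlinarith

lemma Yc_small (l : ℕ) (b : ℕ → Fin M) : Yc hMN t (La t ^ l) b ≤ ((N : ℝ) ^ Bp t l)⁻¹ := by
  unfold Yc
  rw [Real.ofDigits_eq_sum_add_ofDigits (dg hMN t (La t ^ l) b) (Bp t l)]
  have h1 : ∑ i ∈ Finset.range (Bp t l), Real.ofDigitsTerm (dg hMN t (La t ^ l) b) i = 0 := by
    apply Finset.sum_eq_zero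
    intro q hq
    rw [Finset.mem_range] at hq
    have : (dg hMN t (La t ^ l) b q : ℕ) = 0 := by
      apply dg_zero
      intro j hj
      have := Bp_le_pos t l (j + La t ^ l) (by omega)
      omega
    simp [Real.ofDigitsTerm, this]
  rw [h1, zero_add]
  have h1 := Real.ofDigits_le_one (fun i => dg hMN t (La t ^ l) b (i + Bp t l))
  have h2 : (0 : ℝ) ≤ ((N : ℝ) ^ Bp t l)⁻¹ := by positivity
  nlinarith

/-- the tail of the second coordinate gives a small contribution to the first one -/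
lemma tail_small (ht : 1 ≤ t) (hM : 2 ≤ M) (h1 : M ^ (t + 1) ≤ N ^ t) (c : ℝ) (hc0 : 0 ≤ c)
    (l₀ l : ℕ) (hc : 4 * c ≤ 2 ^ (La t ^ l₀)) (hl : l₀ ≤ l) :
    c * ((N : ℝ) ^ Bp t l)⁻¹ * (M : ℝ) ^ Qp t l ≤ 1 / 4 := by
  have hM' : (2 : ℝ) ≤ M := by exact_mod_cast hM
  have hM0 : (0 : ℝ) < M := by linarith
  have h2 := pow_block l ht h1 (by omega)
  have h3 : (M : ℝ) ^ (Qp t l + La t ^ l) ≤ (N : ℝ) ^ Bp t l := by exact_mod_cast h2
  have h4 : ((N : ℝ) ^ Bp t l)⁻¹ ≤ ((M : ℝ) ^ (Qp t l + La t ^ l))⁻¹ :=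
    inv_anti₀ (by positivity) h3
  have h5 : (2 : ℝ) ^ (La t ^ l₀) ≤ (M : ℝ) ^ (La t ^ l) := by
    calc (2 : ℝ) ^ (La t ^ l₀) ≤ 2 ^ (La t ^ l) := by
          apply pow_le_pow_right₀ (by norm_num)
          exact Nat.pow_le_pow_right (by have := two_le_La t; omega) hl
      _ ≤ _ := pow_le_pow_left₀ (by norm_num) hM' _
  calc c * ((N : ℝ) ^ Bp t l)⁻¹ * (M : ℝ) ^ Qp t l
      ≤ c * ((M : ℝ) ^ (Qp t l + La t ^ l))⁻¹ * (M : ℝ) ^ Qp t l := by gcongr
    _ = c * ((M : ℝ) ^ (La t ^ l))⁻¹ := by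
        rw [pow_add, mul_inv]
        field_simp
    _ ≤ 1 / 4 := by
        rw [← div_eq_mul_inv, div_le_iff₀ (by positivity)]
        linarith

lemma digits_or (ht : 1 ≤ t) (hM : 2 ≤ M) (h1 : M ^ (t + 1) ≤ N ^ t) (c : ℝ) (hc0 : 0 ≤ c)
    (l₀ : ℕ) (hc : 4 * c ≤ 2 ^ (La t ^ l₀))
    (hg : ∀ l, l₀ ≤ l → ∃ s : ℕ, 0 ≤ c - s * mesh M N t l ∧
      (c - s * mesh M N t l) * (4 * (M : ℝ) ^ Qp t (l + 1)) ≤ 1)
    [NeZero M] (b : ℕ → Fin M) (k : ℕ) :
    Real.digits (c * Yc hMN t (La t ^ l₀) b) M k = 0 ∨ (dg hMN t (La t ^ l₀) b k : ℕ) = 0 := by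
  have hM' : (2 : ℝ) ≤ M := by exact_mod_cast hM
  have hM0 : (0 : ℝ) < M := by linarith
  have hN0 : (0 : ℝ) < N := by
    have : 0 < N := by omega
    exact_mod_cast this
  have hY0 := Yc_nonneg hMN t (La t ^ l₀) b
  by_cases hk : k < Qp t l₀
  · left
    apply digit_zero M k 1 0 _ (c * Yc hMN t (La t ^ l₀) b) (by norm_num) (one_dvd _) (by simp)
      (by positivity)
    have h2 := Yc_small hMN t l₀ b
    calc c * Yc hMN t (La t ^ l₀) b * (M : ℝ) ^ (k + 1)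
        ≤ c * ((N : ℝ) ^ Bp t l₀)⁻¹ * (M : ℝ) ^ Qp t l₀ := by
          gcongr
          · linarith
          · omega
      _ ≤ 1 / 4 := tail_small t ht hM h1 c hc0 l₀ l₀ hc le_rfl
      _ < 1 := by norm_num
  · push Not at hk
    obtain ⟨l, hl, hk1, hk2⟩ := exists_level t l₀ k hk
    by_cases hP : Pp t (l + 1) ≤ k
    · left
      obtain ⟨v, ε, hv, hε0, hε⟩ := Yc_block hMN t (La t ^ l₀) l b
      obtain ⟨s, hs0, hs1⟩ := hg l hl
      obtain ⟨e, he⟩ : ∃ e, e = c - s * mesh M N t l := ⟨_, rfl⟩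
      rw [← he] at hs0 hs1
      have hv1 : (v : ℝ) / (N : ℝ) ^ Qp t l ≤ 1 := by
        have := Yc_le_one hMN t (La t ^ l₀) b
        linarith
      have hv0 : (0 : ℝ) ≤ (v : ℝ) / (N : ℝ) ^ Qp t l := by positivity
      apply digit_zero M k (M ^ Pp t (l + 1)) (s * v) _
        (e * (v / (N : ℝ) ^ Qp t l) + c * ε) (by positivity) (pow_dvd_pow M hP)
      · rw [hv]
        have hc' : c = s * mesh M N t l + e := by rw [he]; ring
        have e2 : c * ((v : ℝ) / (N : ℝ) ^ Qp t l) =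
            ((s * v : ℕ) : ℝ) / ((M ^ Pp t (l + 1) : ℕ) : ℝ) + e * (v / (N : ℝ) ^ Qp t l) := by
          calc c * ((v : ℝ) / (N : ℝ) ^ Qp t l)
              = (s * mesh M N t l + e) * ((v : ℝ) / (N : ℝ) ^ Qp t l) := by rw [← hc']
            _ = _ := by
                unfold mesh
                push_cast
                field_simp
        rw [mul_add, e2]
        ring
      · positivity
      · have h3 : (M : ℝ) ^ (k + 1) ≤ (M : ℝ) ^ Qp t (l + 1) :=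
          pow_le_pow_right₀ (by linarith) (by omega)
        have h4 := tail_small t ht hM h1 c hc0 l₀ (l + 1) hc (by omega)
        have h5 : e * (v / (N : ℝ) ^ Qp t l) ≤ e * 1 := by gcongr
        calc (e * (v / (N : ℝ) ^ Qp t l) + c * ε) * (M : ℝ) ^ (k + 1)
            ≤ (e * 1 + c * ((N : ℝ) ^ Bp t (l + 1))⁻¹) * (M : ℝ) ^ Qp t (l + 1) := by
              gcongr
          _ = e * (M : ℝ) ^ Qp t (l + 1) +
                c * ((N : ℝ) ^ Bp t (l + 1))⁻¹ * (M : ℝ) ^ Qp t (l + 1) := by ring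
          _ ≤ 1 / 4 + 1 / 4 := by
              apply add_le_add _ h4
              linarith
          _ < 1 := by norm_num
    · right
      push Not at hP
      exact dg_zero hMN t (La t ^ l₀) b k
        (fun j => pos_ne t l _ k hk1 (lt_of_lt_of_le hP (Pp_le_Bp t (l + 1))))

/-- The points `(c y, y)` lie in the carpet. -/
theorem mem_F (ht : 1 ≤ t) (hM : 2 ≤ M) (h1 : M ^ (t + 1) ≤ N ^ t) (c : ℝ) (hc0 : 0 ≤ c)
    (l₀ : ℕ) (hc : 4 * c ≤ 2 ^ (La t ^ l₀))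
    (hg : ∀ l, l₀ ≤ l → ∃ s : ℕ, 0 ≤ c - s * mesh M N t l ∧
      (c - s * mesh M N t l) * (4 * (M : ℝ) ^ Qp t (l + 1)) ≤ 1) (b : ℕ → Fin M) :
    (c * Yc hMN t (La t ^ l₀) b, Yc hMN t (La t ^ l₀) b) ∈ F M N (cross M M) := by
  have hne : NeZero M := ⟨by omega⟩
  have hM' : (2 : ℝ) ≤ M := by exact_mod_cast hM
  have hM0 : (0 : ℝ) < M := by linarith
  have hY0 := Yc_nonneg hMN t (La t ^ l₀) b
  have hX : c * Yc hMN t (La t ^ l₀) b ∈ Set.Ico (0 : ℝ) 1 := by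
    refine ⟨by positivity, ?_⟩
    have h2 := Yc_small hMN t l₀ b
    have h3 : (1 : ℝ) ≤ (M : ℝ) ^ Qp t l₀ := one_le_pow₀ (by linarith)
    have hN0 : (0 : ℝ) < N := by
      have : 0 < N := by omega
      exact_mod_cast this
    calc c * Yc hMN t (La t ^ l₀) b ≤ c * ((N : ℝ) ^ Bp t l₀)⁻¹ := by gcongr
      _ = c * ((N : ℝ) ^ Bp t l₀)⁻¹ * 1 := by ring
      _ ≤ c * ((N : ℝ) ^ Bp t l₀)⁻¹ * (M : ℝ) ^ Qp t l₀ := by gcongr
      _ ≤ 1 / 4 := tail_small t ht hM h1 c hc0 l₀ l₀ hc le_rfl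
      _ < 1 := by norm_num
  refine ⟨fun k => ((Real.digits (c * Yc hMN t (La t ^ l₀) b) M k : ℕ),
    (dg hMN t (La t ^ l₀) b k : ℕ)), ?_, ?_, ?_⟩
  · intro k
    rw [mem_cross]
    rcases digits_or hMN t ht hM h1 c hc0 l₀ hc hg b k with h | h
    · right
      exact ⟨by simp [h], dg_lt hMN t _ b k⟩
    · left
      exact ⟨(Real.digits (c * Yc hMN t (La t ^ l₀) b) M k).2, h⟩
  · have h := Real.ofDigits_digits (b := M) (by omega) hX
    simp only [Real.ofDigits, Real.ofDigitsTerm] at h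
    simp only [div_eq_mul_inv]
    exact h.symm
  · simp only [Yc, Real.ofDigits, Real.ofDigitsTerm, div_eq_mul_inv]

end

end Pool.Agent.H51.BM
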