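import Mathlib
import Pool.Agent.H86.CarpetUpper

set_option autoImplicit false

open MeasureTheory Metric Filter Topology
open scoped ENNReal NNReal

/-!
# Upper bound for the dimension of the carpet
-/

namespace Pool.Agent.H51.BM

open Pool.Agent.H86.Carpet

noncomputable section

/-- number of digits of the first coordinate at level `h` -/
def Lv (M N h : ℕ) : ℕ := Nat.clog M (N ^ h)

/-- index type at level `h` -/
abbrev Ix (M N h : ℕ) := (Fin h → (cross M M : Finset (ℕ × ℕ))) × (Fin (Lv M N h - h) → Fin M)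

/-- approximate squares -/
def sq (M N h : ℕ) (x : Ix M N h) : Set (ℝ × ℝ) :=
  {p | ∃ d : ℕ → ℕ × ℕ, (∀ k, d k ∈ cross M M) ∧
        p.1 = ∑' k, ((d k).1 : ℝ) / (M : ℝ) ^ (k + 1) ∧
        p.2 = ∑' k, ((d k).2 : ℝ) / (N : ℝ) ^ (k + 1) ∧
        (∀ l : Fin h, d l = (x.1 l).1) ∧
        (∀ l : Fin (Lv M N h - h), (d (h + l)).1 = (x.2 l).1)}

variable {M N : ℕ}

lemma le_pow_Lv (hM : 2 ≤ M) (h : ℕ) : N ^ h ≤ M ^ Lv M N h :=
  Nat.le_pow_clog (by omega) _

lemma le_Lv (hM : 2 ≤ M) (hMN : M < N) (h : ℕ) : h ≤ Lv M N h := by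
  have h1 : M ^ h ≤ M ^ Lv M N h := (Nat.pow_le_pow_left hMN.le h).trans (le_pow_Lv hM h)
  exact (Nat.pow_le_pow_iff_right (by omega)).mp h1

lemma pow_Lv_le (hM : 2 ≤ M) (hMN : M < N) (h : ℕ) (hh : 1 ≤ h) : M ^ Lv M N h ≤ M * N ^ h := by
  have h1 : 1 < N ^ h := Nat.one_lt_pow (by omega) (by omega)
  have h2 := Nat.pow_pred_clog_lt_self (b := M) (by omega) h1
  have h3 : 1 ≤ Lv M N h := le_trans hh (le_Lv hM hMN h)
  have h4 : M ^ Lv M N h = M * M ^ (Lv M N h - 1) := by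
    rw [← pow_succ']
    congr 1
    omega
  rw [h4]
  apply Nat.mul_le_mul_left
  exact h2.le

lemma cross_lt' (hM : 2 ≤ M) (hMN : M < N) {d : ℕ × ℕ} (h : d ∈ cross M M) :
    d.1 < M ∧ d.2 < N := by
  have := cross_lt (by omega) (by omega) h
  omega

lemma ediam_sq_le (hM : 2 ≤ M) (hMN : M < N) (h : ℕ) (x : Ix M N h) :
    ediam (sq M N h x) ≤ ENNReal.ofReal (((N : ℝ) ^ h)⁻¹) := by
  have hN0 : (0 : ℝ) < N := by
    have : 0 < N := by omega
    exact_mod_cast this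
  apply ediam_le
  rintro p ⟨d, hd, hp1, hp2, hl, hl'⟩ q ⟨d', hd', hq1, hq2, hk, hk'⟩
  rw [edist_dist, Prod.dist_eq, Real.dist_eq, Real.dist_eq]
  apply ENNReal.ofReal_le_ofReal
  apply max_le
  · rw [hp1, hq1]
    refine (tsum_diff_le M (fun k => (d k).1) (fun k => (d' k).1)
      (fun k => (cross_lt' hM hMN (hd k)).1) (fun k => (cross_lt' hM hMN (hd' k)).1)
      (Lv M N h) ?_).trans ?_
    · intro j hj
      by_cases hj' : j < h
      · have h1 := hl ⟨j, hj'⟩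
        have h2 := hk ⟨j, hj'⟩
        simp only at h1 h2 ⊢
        rw [h1, h2]
      · obtain ⟨l, rfl⟩ := Nat.exists_eq_add_of_le (not_lt.mp hj')
        have hl2 : l < Lv M N h - h := by omega
        have h1 := hl' ⟨l, hl2⟩
        have h2 := hk' ⟨l, hl2⟩
        simp only at h1 h2 ⊢
        rw [h1, h2]
    · apply inv_anti₀ (by positivity)
      exact_mod_cast le_pow_Lv hM h
  · rw [hp2, hq2]
    refine (tsum_diff_le N (fun k => (d k).2) (fun k => (d' k).2)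
      (fun k => (cross_lt' hM hMN (hd k)).2) (fun k => (cross_lt' hM hMN (hd' k)).2) h ?_)
    intro j hj
    have h1 := hl ⟨j, hj⟩
    have h2 := hk ⟨j, hj⟩
    simp only at h1 h2 ⊢
    rw [h1, h2]

lemma cover_sq (hM : 2 ≤ M) (hMN : M < N) (h : ℕ) :
    F M N (cross M M) ⊆ ⋃ x : Ix M N h, sq M N h x := by
  rintro p ⟨d, hd, hp1, hp2⟩
  exact Set.mem_iUnion.mpr ⟨(fun l => ⟨d l, hd l⟩,
    fun l => ⟨(d (h + l)).1, (cross_lt' hM hMN (hd _)).1⟩), d, hd, hp1, hp2, fun l => rfl,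
    fun l => rfl⟩

lemma card_cross_le : (cross M M).card ≤ 2 * M := by
  unfold cross
  refine (Finset.card_union_le _ _).trans ?_
  simp
  omega

lemma card_Ix (hM : 2 ≤ M) (hMN : M < N) (h : ℕ) (hh : 1 ≤ h) :
    Fintype.card (Ix M N h) ≤ 2 ^ h * (M * N ^ h) := by
  have h1 : Fintype.card (Ix M N h) = (cross M M).card ^ h * M ^ (Lv M N h - h) := by
    simp [Fintype.card_prod]
  rw [h1]
  calc (cross M M).card ^ h * M ^ (Lv M N h - h) ≤ (2 * M) ^ h * M ^ (Lv M N h - h) :=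
        Nat.mul_le_mul_right _ (Nat.pow_le_pow_left card_cross_le h)
    _ = 2 ^ h * M ^ (Lv M N h) := by
        rw [mul_pow, mul_assoc, ← pow_add]
        congr 2
        have := le_Lv hM hMN h
        omega
    _ ≤ 2 ^ h * (M * N ^ h) := Nat.mul_le_mul_left _ (pow_Lv_le hM hMN h hh)

lemma level_le (hM : 2 ≤ M) (hMN : M < N) (η : ℝ) (hη : 0 ≤ η) (h : ℕ) (hh : 1 ≤ h) :
    ∑ x : Ix M N h, (ediam (sq M N h x)) ^ (1 + η) ≤
      ENNReal.ofReal (M * (2 / (N : ℝ) ^ η) ^ h) := by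
  have hN0 : (0 : ℝ) < N := by
    have : 0 < N := by omega
    exact_mod_cast this
  have h1 : ∀ x : Ix M N h, (ediam (sq M N h x)) ^ (1 + η) ≤
      ENNReal.ofReal ((((N : ℝ) ^ h)⁻¹) ^ (1 + η)) := by
    intro x
    rw [← ENNReal.ofReal_rpow_of_nonneg (by positivity) (by positivity)]
    exact ENNReal.rpow_le_rpow (ediam_sq_le hM hMN h x) (by positivity)
  refine (Finset.sum_le_card_nsmul _ _ _ (fun x _ => h1 x)).trans ?_
  rw [nsmul_eq_mul, ← ENNReal.ofReal_natCast, ← ENNReal.ofReal_mul (by positivity)]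
  apply ENNReal.ofReal_le_ofReal
  have h2 : ((Finset.univ : Finset (Ix M N h)).card : ℝ) ≤ 2 ^ h * (M * (N : ℝ) ^ h) := by
    rw [Finset.card_univ]
    exact_mod_cast card_Ix hM hMN h hh
  have h3 : (((N : ℝ) ^ h)⁻¹) ^ (1 + η) = ((N : ℝ) ^ h)⁻¹ * (((N : ℝ) ^ η) ^ h)⁻¹ := by
    rw [Real.rpow_add (by positivity), Real.rpow_one, Real.inv_rpow (by positivity)]
    congr 2
    rw [← Real.rpow_natCast, ← Real.rpow_natCast, ← Real.rpow_mul hN0.le, ← Real.rpow_mul hN0.le]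
    congr 1
    ring
  rw [h3]
  have h4 : (0 : ℝ) < (N : ℝ) ^ η := Real.rpow_pos_of_pos hN0 _
  calc ((Finset.univ : Finset (Ix M N h)).card : ℝ) *
        (((N : ℝ) ^ h)⁻¹ * (((N : ℝ) ^ η) ^ h)⁻¹)
      ≤ (2 ^ h * (M * (N : ℝ) ^ h)) * (((N : ℝ) ^ h)⁻¹ * (((N : ℝ) ^ η) ^ h)⁻¹) := by gcongr
    _ = M * (2 / (N : ℝ) ^ η) ^ h := by
        rw [div_pow]
        field_simp

/-- The dimension of the cross carpet is at most `1 + η` as soon as `N ^ η > 2`. -/
theorem dimH_F_le_one_add (hM : 2 ≤ M) (hMN : M < N) (η : ℝ≥0)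
    (h2 : (2 : ℝ) < (N : ℝ) ^ ((η : ℝ≥0) : ℝ)) :
    dimH (F M N (cross M M)) ≤ 1 + (η : ℝ≥0∞) := by
  have hN1 : (1 : ℝ) < N := by
    have : 1 < N := by omega
    exact_mod_cast this
  have hN0 : (0 : ℝ) < N := by linarith
  have h3 : (0 : ℝ) < (N : ℝ) ^ ((η : ℝ≥0) : ℝ) := by linarith
  have e0 : (1 : ℝ≥0∞) + (η : ℝ≥0∞) = ((1 + η : ℝ≥0) : ℝ≥0∞) := by
    rw [ENNReal.coe_add, ENNReal.coe_one]
  rw [e0]
  apply dimH_le_of_hausdorffMeasure_ne_top
  have key : μH[((1 + η : ℝ≥0) : ℝ)] (F M N (cross M M)) ≤ 0 := by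
    have e : ((1 + η : ℝ≥0) : ℝ) = 1 + (η : ℝ) := by push_cast; ring
    rw [e]
    have h := MeasureTheory.Measure.hausdorffMeasure_le_liminf_sum (β := ℕ)
      (ι := fun h => Ix M N h) (1 + (η : ℝ)) (F M N (cross M M)) (l := atTop)
      (r := fun h => ENNReal.ofReal (((N : ℝ) ^ h)⁻¹)) ?_ (t := fun h x => sq M N h x) ?_ ?_
    · refine h.trans ?_
      have h5 : Tendsto (fun h : ℕ => ENNReal.ofReal (M * (2 / (N : ℝ) ^ ((η : ℝ≥0) : ℝ)) ^ h))
          atTop (𝓝 0) := by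
        rw [← ENNReal.ofReal_zero]
        apply ENNReal.tendsto_ofReal
        have h6 : Tendsto (fun h : ℕ => (M : ℝ) * (2 / (N : ℝ) ^ ((η : ℝ≥0) : ℝ)) ^ h) atTop
            (𝓝 ((M : ℝ) * 0)) := by
          apply Tendsto.const_mul
          apply tendsto_pow_atTop_nhds_zero_of_lt_one (by positivity)
          rw [div_lt_one h3]
          exact h2
        rwa [mul_zero] at h6
      rw [← h5.liminf_eq]
      exact liminf_le_liminf (by
        filter_upwards [eventually_ge_atTop 1] with h hh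
        exact level_le hM hMN _ (NNReal.coe_nonneg η) h hh)
    · rw [← ENNReal.ofReal_zero]
      apply ENNReal.tendsto_ofReal
      have h7 : Tendsto (fun h : ℕ => ((N : ℝ)⁻¹) ^ h) atTop (𝓝 0) :=
        tendsto_pow_atTop_nhds_zero_of_lt_one (by positivity) (inv_lt_one_of_one_lt₀ hN1)
      refine h7.congr (fun h => ?_)
      rw [inv_pow]
    · exact Eventually.of_forall (fun h x => ediam_sq_le hM hMN h x)
    · exact Eventually.of_forall (fun h => cover_sq hM hMN h)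
  intro h
  rw [h] at key
  simp at key

end

end Pool.Agent.H51.BM
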