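import Mathlib
import Pool.Agent.H51.BM.Dig
import Pool.Agent.H51.BM.Up

set_option autoImplicit false

open MeasureTheory Metric Filter Topology
open scoped ENNReal NNReal

/-!
# Lines with large slices
-/

namespace Pool.Agent.H51.BM

open Pool.Agent.H86.Carpet

noncomputable section

lemma norm_plane_le (z : Plane) : ‖z‖ ≤ |z 0| + |z 1| := by
  rw [EuclideanSpace.norm_eq, Fin.sum_univ_two, Real.sqrt_le_iff]
  refine ⟨by positivity, ?_⟩
  simp only [Real.norm_eq_abs]
  nlinarith [abs_nonneg (z 0), abs_nonneg (z 1)]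

/-- each point of the carpet lies in a small copy -/
lemma exists_word_point {M N : ℕ} {D : Finset (ℕ × ℕ)} {G : Set Plane} (hG : IsCarpet M N D G)
    (h : ℕ) : ∀ p ∈ G, ∃ w : List (ℕ × ℕ), w.length = h ∧ (∀ d ∈ w, d ∈ D) ∧
      ∃ q ∈ G, p = wordMap M N w q := by
  induction h with
  | zero => exact fun p hp => ⟨[], rfl, by simp, p, hp, rfl⟩
  | succ h ih =>
    intro p hp
    have h1 := hp
    rw [hG.eq_union] at h1
    simp only [Set.mem_iUnion, Set.mem_image] at h1
    obtain ⟨d, hd, q₁, hq₁, rfl⟩ := h1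
    obtain ⟨w, hw, hw', q, hq, rfl⟩ := ih q₁ hq₁
    refine ⟨d :: w, by simp [hw], ?_, q, hq, rfl⟩
    intro e he
    rcases List.mem_cons.mp he with h2 | h2
    · rw [h2]; exact hd
    · exact hw' e h2

variable {M N t : ℕ}

/-- The lines of good slope through the corner points have large slices. -/
lemma dimH_line_good (hMN : M < N) (ht : 1 ≤ t) (hM : 2 ≤ M) (h1 : M ^ (t + 1) ≤ N ^ t)
    (hN : N ≤ M ^ t) {G : Set Plane} (hG : IsCarpet M N (cross M M) G) (w : List (ℕ × ℕ))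
    (hw : ∀ d ∈ w, d ∈ cross M M) (c : ℝ) (hc0 : 0 ≤ c) (hc : Good M N t c) :
    ((al t : ℝ≥0) : ℝ≥0∞) ≤ dimH (G ∩ line (wordMap M N w 0)
      !₂[c * ((N : ℝ) ^ w.length / (M : ℝ) ^ w.length), 1]) := by
  obtain ⟨l₀, hl₀, hg⟩ := hc
  have hM0 : (0 : ℝ) < M := by positivity
  have hN0 : (0 : ℝ) < N := by
    have : 0 < N := by omega
    exact_mod_cast this
  have hGE := hG.eq_FE hM (by omega) (fun d hd => cross_lt' hM hMN hd)
  set h := w.length with hh
  set C : Plane := wordMap M N w 0 with hC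
  set u : Plane := !₂[c * ((N : ℝ) ^ h / (M : ℝ) ^ h), 1] with hu
  set f : ℝ → Plane := fun y => C + (y / (N : ℝ) ^ h) • u with hf
  have hf0 : ∀ y, (f y) 0 = C 0 + c * y / (M : ℝ) ^ h := by
    intro y
    simp [hf, hu]
    field_simp
  have hf1 : ∀ y, (f y) 1 = C 1 + y / (N : ℝ) ^ h := by
    intro y; simp [hf, hu]
  have hanti : AntilipschitzWith (Real.toNNReal ((N : ℝ) ^ h)) f := by
    apply AntilipschitzWith.of_le_mul_dist
    intro x y
    rw [Real.coe_toNNReal _ (by positivity)]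
    have h2 : ‖(f x - f y) 1‖ ≤ ‖f x - f y‖ := PiLp.norm_apply_le _ _
    have h3 : (f x - f y) 1 = ((N : ℝ) ^ h)⁻¹ * (x - y) := by
      rw [PiLp.sub_apply, hf1, hf1]
      ring
    rw [h3, norm_mul, Real.norm_of_nonneg (by positivity)] at h2
    rw [dist_eq_norm, dist_eq_norm]
    calc ‖x - y‖ = (N : ℝ) ^ h * (((N : ℝ) ^ h)⁻¹ * ‖x - y‖) := by field_simp
      _ ≤ _ := by gcongr
  refine (dimH_range_Yc hMN t (La t ^ l₀) hN hM ht (La_pow_pos t l₀)).trans
    ((hanti.le_dimH_image _).trans (dimH_mono ?_))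
  rintro _ ⟨_, ⟨b, rfl⟩, rfl⟩
  constructor
  · have h2 := mem_F hMN t ht hM h1 c hc0 l₀ hl₀ hg b
    have h3 : (!₂[c * Yc hMN t (La t ^ l₀) b, Yc hMN t (La t ^ l₀) b] : Plane) ∈ G := by
      rw [hGE]
      exact h2
    have h4 := wordMap_mem hG w hw _ h3
    have h5 : f (Yc hMN t (La t ^ l₀) b) =
        wordMap M N w !₂[c * Yc hMN t (La t ^ l₀) b, Yc hMN t (La t ^ l₀) b] := by
      apply coord.injective
      rw [coord_apply, coord_apply, hf0, hf1,
        wordMap_zero_coord M N w !₂[c * Yc hMN t (La t ^ l₀) b, Yc hMN t (La t ^ l₀) b],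
        wordMap_one_coord M N w !₂[c * Yc hMN t (La t ^ l₀) b, Yc hMN t (La t ^ l₀) b]]
      rw [← hh, ← hC]
      simp
    rw [h5]
    exact h4
  · exact ⟨_, rfl⟩

/-- The lines with large slices are dense among the lines of positive slope that meet the
carpet. -/
lemma dense_lines_carpet (hMN : M < N) (ht : 1 ≤ t) (hM : 2 ≤ M) (h1 : M ^ (t + 1) ≤ N ^ t)
    (hN : N ≤ M ^ t) {G : Set Plane} (hG : IsCarpet M N (cross M M) G) (p v : Plane)
    (hp : p ∈ G) (hv0 : 0 < v 0) (hv1 : 0 < v 1) (ε : ℝ) (hε : 0 < ε) :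
    ∃ p' v' : Plane, ‖p' - p‖ < ε ∧ ‖v' - v‖ < ε ∧ 0 < v' 0 ∧ 0 < v' 1 ∧
      ((al t : ℝ≥0) : ℝ≥0∞) ≤ dimH (G ∩ line p' v') := by
  have hM0 : (0 : ℝ) < M := by positivity
  have hM1 : (1 : ℝ) < M := by exact_mod_cast (by omega : 1 < M)
  have hN0 : (0 : ℝ) < N := by
    have : 0 < N := by omega
    exact_mod_cast this
  have hMN' : (M : ℝ) ≤ N := by exact_mod_cast hMN.le
  obtain ⟨h, hh⟩ : ∃ h : ℕ, 2 * (1 / (M : ℝ)) ^ h < ε := by
    have h4 : Tendsto (fun h : ℕ => 2 * ((1 : ℝ) / M) ^ h) atTop (𝓝 (2 * 0)) := by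
      apply Tendsto.const_mul
      apply tendsto_pow_atTop_nhds_zero_of_lt_one (by positivity)
      rw [div_lt_one hM0]
      exact hM1
    rw [mul_zero] at h4
    exact (h4.eventually_lt_const hε).exists
  obtain ⟨w, hwl, hw, q, hq, hpq⟩ := exists_word_point hG h p hp
  have hqs := hG.subset_square q hq
  set R : ℝ := (N : ℝ) ^ w.length / (M : ℝ) ^ w.length with hR
  have hR0 : 0 < R := by rw [hR]; positivity
  obtain ⟨c, hc1, hc2, hc3⟩ := exists_good (M := M) (N := N) (t := t) hM ht (by omega) hN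
    (v 0 / v 1 / R) (v 0 / v 1 / R + ε / (v 1 * R)) (by positivity)
    (by have : 0 < ε / (v 1 * R) := by positivity
        linarith)
  have hc0 : 0 < c := lt_of_le_of_lt (by positivity) hc1
  have hslope := dimH_line_good hMN ht hM h1 hN hG w hw c hc0.le hc3
  have e1 : v 1 * (c * R) - v 0 = v 1 * R * (c - v 0 / v 1 / R) := by field_simp
  refine ⟨wordMap M N w 0, !₂[v 1 * (c * R), v 1], ?_, ?_, ?_, ?_, ?_⟩
  · refine (norm_plane_le _).trans_lt ?_
    have h2 : (wordMap M N w 0 - p) 0 = - (q 0 / (M : ℝ) ^ h) := by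
      rw [PiLp.sub_apply, hpq, wordMap_zero_coord M N w q, hwl]
      ring
    have h3 : (wordMap M N w 0 - p) 1 = - (q 1 / (N : ℝ) ^ h) := by
      rw [PiLp.sub_apply, hpq, wordMap_one_coord M N w q, hwl]
      ring
    rw [h2, h3, abs_neg, abs_neg, abs_of_nonneg (div_nonneg hqs.1.1 (by positivity)),
      abs_of_nonneg (div_nonneg hqs.2.1 (by positivity))]
    have h4 : q 0 / (M : ℝ) ^ h ≤ (1 / (M : ℝ)) ^ h := by
      rw [one_div, inv_pow, div_eq_mul_inv]
      have := hqs.1.2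
      have h5 : (0 : ℝ) ≤ ((M : ℝ) ^ h)⁻¹ := by positivity
      nlinarith
    have h6 : q 1 / (N : ℝ) ^ h ≤ (1 / (M : ℝ)) ^ h := by
      calc q 1 / (N : ℝ) ^ h ≤ 1 / (N : ℝ) ^ h := by
            have := hqs.2.2
            gcongr
        _ ≤ 1 / (M : ℝ) ^ h := by gcongr
        _ = (1 / (M : ℝ)) ^ h := by rw [div_pow, one_pow]
    linarith
  · refine (norm_plane_le _).trans_lt ?_
    have h2 : ((!₂[v 1 * (c * R), v 1] : Plane) - v) 0 = v 1 * R * (c - v 0 / v 1 / R) := by
      rw [PiLp.sub_apply, ← e1]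
      simp
    have h3 : ((!₂[v 1 * (c * R), v 1] : Plane) - v) 1 = 0 := by
      rw [PiLp.sub_apply]
      simp
    rw [h2, h3, abs_zero, add_zero, abs_of_pos (by
      have : 0 < c - v 0 / v 1 / R := by linarith
      positivity)]
    calc v 1 * R * (c - v 0 / v 1 / R) < v 1 * R * (ε / (v 1 * R)) := by
          gcongr
          linarith
      _ = ε := by field_simp
  · simp
    positivity
  · simpa using hv1
  · have e2 : line (wordMap M N w 0) !₂[v 1 * (c * R), v 1] =
        line (wordMap M N w 0) !₂[c * R, 1] := by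
      ext z
      constructor
      · rintro ⟨s, rfl⟩
        refine ⟨s * v 1, ?_⟩
        ext i
        fin_cases i
        · simp
          ring
        · simp
      · rintro ⟨s, rfl⟩
        refine ⟨s / v 1, ?_⟩
        ext i
        fin_cases i
        · simp
          field_simp
        · simp
          field_simp
    rw [e2]
    exact hslope

end

end Pool.Agent.H51.BM
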